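import Pool.Agent.H8.DS.TarG
import Pool.Agent.H8.DS.TarK
import Pool.Agent.H7.DS.INV

/-!
Module K2: on every slit all generic points are in `Rr`, or none (MP_81a758_an).
-/

namespace DS

open Set Data

namespace H60K2

variable {C S : Type}

theorem fc_hc (X : Data C S) (t : ℝ) : ∀ (n : ℕ) (y y' : S × ℝ), X.FC t n y y' → X.HC t n y y'
  | 0, _, _, h => h
  | n + 1, _, y', ⟨y₁, h1, _, h3⟩ => ⟨y₁, h1, fc_hc X t n y₁ y' h3⟩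

theorem hc_add (X : Data C S) (t : ℝ) : ∀ (m n : ℕ) (y y' y'' : S × ℝ), X.HC t m y y' →
    X.HC t n y' y'' → X.HC t (m + n) y y''
  | 0, n, y, y', y'', h, h' => by
    have h2 : y = y' := h
    rw [Nat.zero_add, h2]; exact h'
  | m + 1, n, y, y', y'', ⟨y₁, h1, h2⟩, h' => by
    rw [Nat.succ_add]
    exact ⟨y₁, h1, hc_add X t m n y₁ y' y'' h2 h'⟩

theorem fc_split (X : Data C S) (t : ℝ) : ∀ (m n : ℕ) (y y'' : S × ℝ), X.FC t (m + n) y y'' →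
    ∃ y', X.FC t m y y' ∧ X.FC t n y' y''
  | 0, n, y, y'', h => ⟨y, rfl, by rw [Nat.zero_add] at h; exact h⟩
  | m + 1, n, y, y'', h => by
    rw [Nat.succ_add] at h
    obtain ⟨y₁, h1, h2, h3⟩ := h
    obtain ⟨y', h4, h5⟩ := fc_split X t m n y₁ y'' h3
    exact ⟨y', ⟨y₁, h1, h2, h4⟩, h5⟩

theorem hc_det (hD : T_HITD) (X : Data C S) (hX : X.Surface) (t : ℝ) :
    ∀ (n : ℕ) (y z z' : S × ℝ), X.HC t n y z → X.HC t n y z' → z = z'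
  | 0, _, _, _, h, h' => by
    have h1 : _ = _ := h
    have h2 : _ = _ := h'
    rw [← h1, ← h2]
  | n + 1, y, z, z', ⟨y₁, h1, h2⟩, ⟨y₂, h3, h4⟩ => by
    have := (hD C S X hX t y y₁ y₂).1 h1 h3
    subst this
    exact hc_det hD X hX t n y₁ z z' h2 h4

theorem hc_det' (hD : T_HITD) (X : Data C S) (hX : X.Surface) (t : ℝ) :
    ∀ (n : ℕ) (y z z' : S × ℝ), X.HC t n z y → X.HC t n z' y → z = z'
  | 0, _, _, _, h, h' => by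
    have h1 : _ = _ := h
    have h2 : _ = _ := h'
    rw [h1, h2]
  | n + 1, y, z, z', ⟨y₁, h1, h2⟩, ⟨y₂, h3, h4⟩ => by
    have := hc_det' hD X hX t n y y₁ y₂ h2 h4
    subst this
    exact (hD C S X hX t y₁ z z').2 h1 h3

theorem rr_gen (hD : T_HITD) (hE : T_HEND) (X : Data C S) (hX : X.Surface) (t : ℝ) (y : S × ℝ)
    (h : X.Rr t y) : X.Gen t y := by
  constructor
  · intro n z hz
    obtain ⟨y', h'⟩ := (h (n + 1)).1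
    obtain ⟨y₁, h1, h2, -⟩ := (H7INV.fc_snoc X t n y y').1 h'
    have := hc_det hD X hX t n y z y₁ hz (fc_hc X t n y y₁ h1)
    subst this
    exact (hE C S X hX t z y' h2).1
  · intro n z hz
    obtain ⟨y', y₁, h1, -, h2⟩ := (h (n + 1)).2
    have := hc_det' hD X hX t n y z y₁ hz (fc_hc X t n y₁ y h2)
    subst this
    exact (hE C S X hX t y' z h1).2

/-- Close to points of `Rr` and to generic points outside. -/
def Z (X : Data C S) (t : ℝ) (y : S × ℝ) : Prop :=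
  y.2 ∈ Ioo (0 : ℝ) 1 ∧ (∀ ε > 0, ∃ ξ ∈ Ioo (0 : ℝ) 1, |ξ - y.2| < ε ∧ X.Rr t (y.1, ξ)) ∧
    ∀ ε > 0, ∃ ξ ∈ Ioo (0 : ℝ) 1, |ξ - y.2| < ε ∧ X.Gen t (y.1, ξ) ∧ ¬ X.Rr t (y.1, ξ)

theorem z_flat (X : Data C S) (t : ℝ) (y : S × ℝ) (h : Z X t y) :
    ¬ X.Hopf (X.comp y.1) ∧ ¬ X.Hopf (X.comp (X.glue y.1)) := by
  obtain ⟨ξ, hξ, -, hr⟩ := h.2.1 1 one_pos
  obtain ⟨⟨y', y₁, h1, h2, h3⟩, ⟨z', z₁, k1, k2, k3⟩⟩ := hr 1
  refine ⟨?_, h2⟩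
  have k4 : z₁ = (y.1, ξ) := k3
  have k5 := k1.2.2.1
  rw [k4] at k5
  rw [show X.comp y.1 = X.comp (X.glue z'.1) from k5]
  exact k2

theorem z_fwd (hI : T_INV) (hO : T_OPEN) [Finite S] (X : Data C S) (hX : X.Surface) (t : ℝ)
    (y y' : S × ℝ) (h : Z X t y) (hit : X.Hit t y y') : Z X t y' := by
  obtain ⟨α, hα, ε, hε, hop⟩ := hO C S X hX t y y' hit
  have hf := (z_flat X t y h).2
  refine ⟨hit.2.1, ?_, ?_⟩
  · intro ε' hε'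
    obtain ⟨ξ, hξ, h1, h2⟩ := h.2.1 (min ε (ε' / α)) (lt_min hε (div_pos hε' hα))
    have hh := hop (ξ - y.2) (lt_of_lt_of_le h1 (min_le_left _ _))
    rw [show y.2 + (ξ - y.2) = ξ by ring] at hh
    refine ⟨y'.2 + α * (ξ - y.2), hh.2.1, ?_, ?_⟩
    · rw [show y'.2 + α * (ξ - y.2) - y'.2 = α * (ξ - y.2) by ring, abs_mul, abs_of_pos hα]
      have := lt_of_lt_of_le h1 (min_le_right _ _)
      rw [lt_div_iff₀ hα] at this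
      linarith
    · exact ((hI C S X hX t _ _ hh).2 hf).1 h2
  · intro ε' hε'
    obtain ⟨ξ, hξ, h1, h2, h3⟩ := h.2.2 (min ε (ε' / α)) (lt_min hε (div_pos hε' hα))
    have hh := hop (ξ - y.2) (lt_of_lt_of_le h1 (min_le_left _ _))
    rw [show y.2 + (ξ - y.2) = ξ by ring] at hh
    refine ⟨y'.2 + α * (ξ - y.2), hh.2.1, ?_, ?_, ?_⟩
    · rw [show y'.2 + α * (ξ - y.2) - y'.2 = α * (ξ - y.2) by ring, abs_mul, abs_of_pos hα]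
      have := lt_of_lt_of_le h1 (min_le_right _ _)
      rw [lt_div_iff₀ hα] at this
      linarith
    · exact (hI C S X hX t _ _ hh).1.1 h2
    · exact fun h4 => h3 (((hI C S X hX t _ _ hh).2 hf).2 h4)

theorem z_bwd (hI : T_INV) (hO : T_OPEN) [Finite S] (X : Data C S) (hX : X.Surface) (t : ℝ)
    (y y' : S × ℝ) (h : Z X t y) (hit : X.Hit t y' y) : Z X t y' := by
  obtain ⟨α, hα, ε, hε, hop⟩ := hO C S X hX t y' y hit
  have hf : ¬ X.Hopf (X.comp (X.glue y'.1)) := by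
    rw [← hit.2.2.1]; exact (z_flat X t y h).1
  have key : ∀ ε' > 0, ∀ ξ : ℝ, |ξ - y.2| < α * min ε ε' →
      X.Hit t (y'.1, y'.2 + (ξ - y.2) / α) (y.1, ξ) ∧ |(ξ - y.2) / α| < ε' := by
    intro ε' hε' ξ h1
    have h2 : |(ξ - y.2) / α| < min ε ε' := by
      rw [abs_div, abs_of_pos hα, div_lt_iff₀ hα]
      linarith
    have hh := hop ((ξ - y.2) / α) (lt_of_lt_of_le h2 (min_le_left _ _))
    rw [show y.2 + α * ((ξ - y.2) / α) = ξ by field_simp; ring] at hh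
    exact ⟨hh, lt_of_lt_of_le h2 (min_le_right _ _)⟩
  refine ⟨hit.1, ?_, ?_⟩
  · intro ε' hε'
    obtain ⟨ξ, hξ, h1, h2⟩ := h.2.1 (α * min ε ε') (mul_pos hα (lt_min hε hε'))
    obtain ⟨hh, h5⟩ := key ε' hε' ξ h1
    refine ⟨y'.2 + (ξ - y.2) / α, hh.1, ?_, ((hI C S X hX t _ _ hh).2 hf).2 h2⟩
    rwa [show y'.2 + (ξ - y.2) / α - y'.2 = (ξ - y.2) / α by ring]
  · intro ε' hε'
    obtain ⟨ξ, hξ, h1, h2, h3⟩ := h.2.2 (α * min ε ε') (mul_pos hα (lt_min hε hε'))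
    obtain ⟨hh, h5⟩ := key ε' hε' ξ h1
    refine ⟨y'.2 + (ξ - y.2) / α, hh.1, ?_, (hI C S X hX t _ _ hh).1.2 h2,
      fun h4 => h3 (((hI C S X hX t _ _ hh).2 hf).1 h4)⟩
    rwa [show y'.2 + (ξ - y.2) / α - y'.2 = (ξ - y.2) / α by ring]

theorem z_fc (hI : T_INV) (hO : T_OPEN) [Finite S] (X : Data C S) (hX : X.Surface) (t : ℝ) :
    ∀ (n : ℕ) (y y' : S × ℝ), Z X t y → X.FC t n y y' → Z X t y'
  | 0, y, y', h, h' => by
    have h2 : y = y' := h'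
    rw [← h2]; exact h
  | n + 1, y, y', h, ⟨y₁, h1, _, h3⟩ =>
    z_fc hI hO X hX t n y₁ y' (z_fwd hI hO X hX t y y₁ h h1) h3

theorem z_fc' (hI : T_INV) (hO : T_OPEN) [Finite S] (X : Data C S) (hX : X.Surface) (t : ℝ) :
    ∀ (n : ℕ) (y y' : S × ℝ), Z X t y → X.FC t n y' y → Z X t y'
  | 0, y, y', h, h' => by
    have h2 : y' = y := h'
    rw [h2]; exact h
  | n + 1, y, y', h, ⟨y₁, h1, _, h3⟩ =>
    z_bwd hI hO X hX t y₁ y' (z_fc' hI hO X hX t n y y₁ h h3) h1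

theorem far (hI : T_INV) (hO : T_OPEN) (hH : T_HEX) [Finite S] (X : Data C S) (hX : X.Surface)
    (t : ℝ) (ht : X.Tgood t) : ∀ (n : ℕ) (y : S × ℝ), Z X t y →
    (∃ y', X.FC t n y y') ∨ ∃ m y', X.FC t m y y' ∧ X.EndA t y'
  | 0, y, _ => Or.inl ⟨y, rfl⟩
  | n + 1, y, h => by
    have hf := (z_flat X t y h).2
    rcases (hH C S X hX t ht y h.1).1 hf with ⟨y₁, h1⟩ | h1
    · rcases far hI hO hH X hX t ht n y₁ (z_fwd hI hO X hX t y y₁ h h1) with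
        ⟨y', h2⟩ | ⟨m, y', h2, h3⟩
      · exact Or.inl ⟨y', y₁, h1, hf, h2⟩
      · exact Or.inr ⟨m + 1, y', ⟨y₁, h1, hf, h2⟩, h3⟩
    · exact Or.inr ⟨0, y, rfl, h1⟩

theorem near (hI : T_INV) (hO : T_OPEN) (hH : T_HEX) [Finite S] (X : Data C S) (hX : X.Surface)
    (t : ℝ) (ht : X.Tgood t) : ∀ (n : ℕ) (y : S × ℝ), Z X t y →
    (∃ y', X.FC t n y' y) ∨ ∃ m y', X.FC t m y' y ∧ Z X t y' ∧ X.EndB t y'
  | 0, y, _ => Or.inl ⟨y, rfl⟩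
  | n + 1, y, h => by
    have hf := (z_flat X t y h).1
    rcases (hH C S X hX t ht y h.1).2 hf with ⟨y₁, h1⟩ | h1
    · have hf' : ¬ X.Hopf (X.comp (X.glue y₁.1)) := by rw [← h1.2.2.1]; exact hf
      rcases near hI hO hH X hX t ht n y₁ (z_bwd hI hO X hX t y y₁ h h1) with
        ⟨y', h2⟩ | ⟨m, y', h2, h3, h4⟩
      · exact Or.inl ⟨y', (H7INV.fc_snoc X t n y' y).2 ⟨y₁, h2, h1, hf'⟩⟩
      · exact Or.inr ⟨m + 1, y', (H7INV.fc_snoc X t m y' y).2 ⟨y₁, h2, h1, hf'⟩, h3, h4⟩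
    · exact Or.inr ⟨0, y, rfl, h, h1⟩

theorem z_exists (hD : T_HITD) (hE : T_HEND) (hG : T_GEN) [Finite S] (X : Data C S)
    (hX : X.Surface) (t : ℝ) (s : S) (ξ₁ ξ₂ : ℝ) (h1 : ξ₁ ∈ Ioo (0 : ℝ) 1) (h1' : X.Rr t (s, ξ₁))
    (h2 : ξ₂ ∈ Ioo (0 : ℝ) 1) (h2' : X.Gen t (s, ξ₂)) (h2'' : ¬ X.Rr t (s, ξ₂)) :
    ∃ p, Z X t (s, p) := by
  set A : Set ℝ := {ξ | ξ ∈ Ioo (0 : ℝ) 1 ∧ X.Rr t (s, ξ)} with hA
  set B : Set ℝ := {ξ | ξ ∈ Ioo (0 : ℝ) 1 ∧ X.Gen t (s, ξ) ∧ ¬ X.Rr t (s, ξ)} with hB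
  have hd : Dense ({ξ | ¬ X.Gen t (s, ξ)}ᶜ) := (hG C S X hX t s).dense_compl ℝ
  have hsub : Ioo (0 : ℝ) 1 ⊆ closure A ∪ closure B := by
    rw [← closure_union]
    refine (hd.open_subset_closure_inter isOpen_Ioo).trans (closure_mono ?_)
    rintro ξ ⟨hξ, hg⟩
    have hg' : X.Gen t (s, ξ) := by
      by_contra h
      exact hg h
    by_cases hr : X.Rr t (s, ξ)
    · exact Or.inl ⟨hξ, hr⟩
    · exact Or.inr ⟨hξ, hg', hr⟩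
  obtain ⟨p, hp, hpA, hpB⟩ := isPreconnected_closed_iff.1 (isPreconnected_Ioo (a := (0 : ℝ))
    (b := 1)) (closure A) (closure B) isClosed_closure isClosed_closure hsub
    ⟨ξ₁, h1, subset_closure ⟨h1, h1'⟩⟩ ⟨ξ₂, h2, subset_closure ⟨h2, h2', h2''⟩⟩
  refine ⟨p, hp, ?_, ?_⟩
  · intro ε hε
    obtain ⟨ξ, hξ, hd⟩ := Metric.mem_closure_iff.1 hpA ε hε
    refine ⟨ξ, hξ.1, ?_, hξ.2⟩
    rwa [Real.dist_eq, abs_sub_comm] at hd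
  · intro ε hε
    obtain ⟨ξ, hξ, hd⟩ := Metric.mem_closure_iff.1 hpB ε hε
    refine ⟨ξ, hξ.1, ?_, hξ.2⟩
    rwa [Real.dist_eq, abs_sub_comm] at hd

end H60K2

open H60K2 in
theorem pf_K2 (hA : T_K2A) (hG : T_GEN) (hI : T_INV) (hO : T_OPEN) (hH : T_HEX) (hD : T_HITD)
    (hE : T_HEND) : T_K2 := by
  intro C S _ X hX t ht N hN s hs ξ₂ hξ₂ hg
  by_contra hr
  obtain ⟨ξ₁, h1, h1'⟩ := hs
  obtain ⟨p, hp⟩ := z_exists hD hE hG X hX t s ξ₁ ξ₂ h1 h1' hξ₂ hg hr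
  have hA2 := (hA C S X hX t ht N hN).2
  have no : ∀ y, Z X t y → (∃ y', X.FC t N y y') → (∃ y', X.FC t N y' y) → False := by
    intro y hy hf hb
    obtain ⟨ε, hε, hh⟩ := hA2 y hf hb hy.1.1 hy.1.2
    obtain ⟨ξ, hξ, k1, k2, k3⟩ := hy.2.2 ε hε
    have := hh (ξ - y.2) k1
    rw [show y.2 + (ξ - y.2) = ξ by ring] at this
    exact k3 (this k2)
  rcases far hI hO hH X hX t ht (N + N) (s, p) hp with ⟨y'', h⟩ | ⟨m, y', h2, h3⟩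
  · obtain ⟨y', h4, h5⟩ := fc_split X t N N _ _ h
    exact no y' (z_fc hI hO X hX t N _ _ hp h4) ⟨_, h5⟩ ⟨_, h4⟩
  · rcases near hI hO hH X hX t ht (N + N) (s, p) hp with ⟨y'', h⟩ | ⟨m', y'', k2, k3, k4⟩
    · obtain ⟨y', h4, h5⟩ := fc_split X t N N _ _ h
      exact no y' (z_fc' hI hO X hX t N _ _ hp h5) ⟨_, h5⟩ ⟨_, h4⟩
    · obtain ⟨s'', ξ''⟩ := y''
      exact ht.nosad' s'' ξ'' (m' + m) y' k3.1 k4
        (hc_add X t m' m _ _ _ (fc_hc X t m' _ _ k2) (fc_hc X t m _ _ h2)) h3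

end DS
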