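import Pool.Agent.H8.DS.TarK
import Pool.Agent.H8.DS.TarG

/-!
Module K3G of ds_modules (MP_81a758_an).
-/

namespace DS

open Set Data

namespace H60K3G

variable {C S : Type}

theorem pt_add (X : Data C S) (s : S) (ξ δ : ℝ) (hl : 0 < X.len s) :
    X.pt s (ξ + δ / X.len s) = ((X.pt s ξ).1 + δ, (X.pt s ξ).2) := by
  unfold Data.pt
  refine Prod.ext ?_ rfl
  simp only
  field_simp
  ring

theorem act_add (g : ℝ × ℝ × ℝ) (hg : g.1 = 1) (z : ℝ × ℝ) (δ : ℝ) :
    act g (z.1 + δ, z.2) = ((act g z).1 + δ, (act g z).2) := by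
  unfold act
  refine Prod.ext ?_ rfl
  simp only [hg]
  ring

theorem fwd_shift (t : ℝ) (z : ℝ × ℝ) (δ h : ℝ) :
    fwd t (z.1 + δ, z.2) h = ((fwd t z h).1 + δ, (fwd t z h).2) := by
  unfold fwd
  refine Prod.ext ?_ rfl
  simp only
  ring

theorem hit_of (hEQV : T_EQV) (X : Data C S) (hX : X.Surface) (t : ℝ) (c : C)
    (hc : ¬ X.Hopf c) (i j k : S) (hi : X.comp i = c) (hj : X.glue j = i) (hk : X.comp k = c)
    (g g₂ : ℝ × ℝ × ℝ) (hg : g ∈ X.deck c) (hg₂ : g₂ ∈ X.deck c) (x y h : ℝ)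
    (hx : x ∈ Ioo (0 : ℝ) 1) (hy : y ∈ Ioo (0 : ℝ) 1) (hh : 0 < h)
    (hcl : X.Clear t c (act g (X.pt i x)) h)
    (hf : fwd t (act g (X.pt i x)) h = act g₂ (X.pt k y)) : X.Hit t (j, x) (k, y) := by
  have hg1 : g.1 = 1 := deck_flat X hX c hc g hg
  have hgi := deck_inv X hX c g hg
  have hgi1 : (ginv g).1 = 1 := deck_flat X hX c hc _ hgi
  refine ⟨hx, hy, ?_, gmul (ginv g) g₂, ?_, h, hh, ?_, ?_⟩
  · show X.comp k = X.comp (X.glue j)
    rw [hj, hi, hk]
  · show _ ∈ X.deck (X.comp k)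
    rw [hk]
    exact deck_mul X hX c _ _ hgi hg₂
  · show X.Clear t (X.comp (X.glue j)) (X.pt (X.glue j) x) h
    rw [hj, hi]
    have h1 := (hEQV C S X hX c g hg (X.pt i x)).2.2.2.2 t h
    rw [hg1, one_mul] at h1
    exact h1.1 hcl
  · show fwd t (X.pt (X.glue j) x) h = act (gmul (ginv g) g₂) (X.pt k y)
    rw [hj, act_gmul, ← hf, act_fwd, hgi1, one_mul, act_ginv g (by rw [hg1]; exact one_ne_zero)]

end H60K3G

theorem pf_K3G (hUPZ : T_UPZ) (hDNZ : T_DNZ) (hUPF : T_UPF) (hTUBE : T_TUBE) (hISOL : T_ISOL)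
    (hSLU : T_SLU) (hEQV : T_EQV) : T_K3G := by
  intro C S _ X hX t ht s hs
  obtain ⟨c, hc⟩ : ∃ c, c = X.comp s := ⟨_, rfl⟩
  rw [← hc] at hs
  obtain ⟨e, he⟩ : ∃ e, e = X.pt s 0 := ⟨_, rfl⟩
  have hend : X.OnEnd c e :=
    ⟨s, hc.symm, (1, 0, 0), deck_one X hX c, Or.inl (by rw [act_one, he])⟩
  have hUP := hUPF C S X hX t ht c hs e
  -- below
  have below : ∃ i, X.comp i = c ∧ ∃ g ∈ X.deck c, ∃ ξ ∈ Ioo (0 : ℝ) 1, ∃ h > 0,
      X.Clear t c (act g (X.pt i ξ)) h ∧ e = fwd t (act g (X.pt i ξ)) h := by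
    rcases hDNZ C S X hX t c e (fun h => absurd h hs) with h | h | h | h
    · obtain ⟨k, hk, hk'⟩ := hUP.2
      exact absurd (h k hk) hk'
    · exact h
    · obtain ⟨w, h, hh, hw, hcl, hwe⟩ := h
      exact absurd (hwe ▸ hend) (ht.nosad c w h hw hh hcl)
    · exact absurd h.1 hs
  have above : ∃ k, X.comp k = c ∧ ∃ g ∈ X.deck c, ∃ ξ ∈ Ioo (0 : ℝ) 1, ∃ h > 0,
      X.Clear t c e h ∧ fwd t e h = act g (X.pt k ξ) := by
    rcases hUPZ C S X hX t c e (fun h => absurd h hs) with h | h | h | h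
    · obtain ⟨k, hk, hk'⟩ := hUP.1
      exact absurd (h k hk) hk'
    · exact h
    · obtain ⟨h, hh, hcl, hw⟩ := h
      exact absurd hw (ht.nosad c e h hend hh hcl)
    · exact absurd h.1 hs
  obtain ⟨i, hi, g, hg, ξ', hξ', h₁, hh₁, hcl₁, he₁⟩ := below
  obtain ⟨k, hk, g₂, hg₂, η', hη', h₂, hh₂, hcl₂, he₂⟩ := above
  have hg1 : g.1 = 1 := deck_flat X hX c hs g hg
  have hg₂1 : g₂.1 = 1 := deck_flat X hX c hs g₂ hg₂
  obtain ⟨ε₁, hε₁, htube₁⟩ := hTUBE C S X hX t c (act g (X.pt i ξ')) h₁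
    (fun h => absurd h hs) hcl₁
  obtain ⟨ε₂, hε₂, htube₂⟩ := hTUBE C S X hX t c e h₂ (fun h => absurd h hs) hcl₂
  obtain ⟨ε₃, hε₃, hiso⟩ := hISOL C S X hX c e (fun h => absurd h hs)
  have li := hX.pos i
  have ls := hX.pos s
  have lk := hX.pos k
  -- the small number
  obtain ⟨d, hd, hd1, hd2, hd3, hd4, hd5, hd6, hd7, hd8⟩ : ∃ d : ℝ, 0 < d ∧ d < ε₁ ∧ d < ε₂ ∧
      d < ε₃ ∧ d < ξ' * X.len i ∧ d < (1 - ξ') * X.len i ∧ d < X.len s ∧
      d < η' * X.len k ∧ d < (1 - η') * X.len k := by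
    have p1 : 0 < ξ' * X.len i := mul_pos hξ'.1 li
    have p2 : 0 < (1 - ξ') * X.len i := mul_pos (by linarith [hξ'.2]) li
    have p3 : 0 < η' * X.len k := mul_pos hη'.1 lk
    have p4 : 0 < (1 - η') * X.len k := mul_pos (by linarith [hη'.2]) lk
    let m := min (min (min ε₁ ε₂) (min ε₃ (ξ' * X.len i))) (min (min ((1 - ξ') * X.len i)
      (X.len s)) (min (η' * X.len k) ((1 - η') * X.len k)))
    have hm : 0 < m := by
      refine lt_min (lt_min (lt_min hε₁ hε₂) (lt_min hε₃ p1)) (lt_min (lt_min p2 ls)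
        (lt_min p3 p4))
    have a1 : m ≤ min (min ε₁ ε₂) (min ε₃ (ξ' * X.len i)) := min_le_left _ _
    have a2 : m ≤ min (min ((1 - ξ') * X.len i) (X.len s)) (min (η' * X.len k)
      ((1 - η') * X.len k)) := min_le_right _ _
    have b1 := a1.trans (min_le_left _ _)
    have b2 := a1.trans (min_le_right _ _)
    have b3 := a2.trans (min_le_left _ _)
    have b4 := a2.trans (min_le_right _ _)
    have c1 := b1.trans (min_le_left _ _)
    have c2 := b1.trans (min_le_right _ _)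
    have c3 := b2.trans (min_le_left _ _)
    have c4 := b2.trans (min_le_right _ _)
    have c5 := b3.trans (min_le_left _ _)
    have c6 := b3.trans (min_le_right _ _)
    have c7 := b4.trans (min_le_left _ _)
    have c8 := b4.trans (min_le_right _ _)
    exact ⟨m / 2, by linarith, by linarith, by linarith, by linarith, by linarith, by linarith,
      by linarith, by linarith, by linarith⟩
  have hdi : d / X.len i < ξ' := by rw [div_lt_iff₀ li]; exact hd4
  have hdi' : d / X.len i < 1 - ξ' := by rw [div_lt_iff₀ li]; exact hd5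
  have hds : d / X.len s < 1 := by rw [div_lt_iff₀ ls]; linarith
  have hdk : d / X.len k < η' := by rw [div_lt_iff₀ lk]; exact hd7
  have hdk' : d / X.len k < 1 - η' := by rw [div_lt_iff₀ lk]; exact hd8
  have hdip : 0 < d / X.len i := div_pos hd li
  have hdsp : 0 < d / X.len s := div_pos hd ls
  have hdkp : 0 < d / X.len k := div_pos hd lk
  have hpti : ∀ δ : ℝ, act g (X.pt i (ξ' + δ / X.len i)) =
      ((act g (X.pt i ξ')).1 + δ, (act g (X.pt i ξ')).2) := by
    intro δ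
    rw [H60K3G.pt_add X i ξ' δ li, H60K3G.act_add g hg1]
  have hptk : ∀ δ : ℝ, act g₂ (X.pt k (η' + δ / X.len k)) =
      ((act g₂ (X.pt k η')).1 + δ, (act g₂ (X.pt k η')).2) := by
    intro δ
    rw [H60K3G.pt_add X k η' δ lk, H60K3G.act_add g₂ hg₂1]
  have hpts : X.pt s (d / X.len s) = (e.1 + d, e.2) := by
    have := H60K3G.pt_add X s 0 d ls
    rw [zero_add] at this
    rw [this, he]
  have hfi : ∀ δ : ℝ, fwd t (act g (X.pt i (ξ' + δ / X.len i))) h₁ = (e.1 + δ, e.2) := by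
    intro δ
    rw [hpti, H60K3G.fwd_shift, ← he₁]
  have hfk : ∀ δ : ℝ, fwd t (e.1 + δ, e.2) h₂ = act g₂ (X.pt k (η' + δ / X.len k)) := by
    intro δ
    rw [hptk, H60K3G.fwd_shift, he₂]
  have habs : |d| < ε₁ := by rw [abs_of_pos hd]; exact hd1
  have habs2 : |d| < ε₂ := by rw [abs_of_pos hd]; exact hd2
  have habsn : |-d| < ε₁ := by rw [abs_neg]; exact habs
  have habsn2 : |-d| < ε₂ := by rw [abs_neg]; exact habs2
  refine ⟨X.glue.symm i, k, ξ' + d / X.len i, ξ' + (-d) / X.len i, d / X.len s, d / X.len s,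
    η' + (-d) / X.len k, η' + d / X.len k, ?_, ?_, ?_, ?_⟩
  · rw [Equiv.apply_symm_apply, hi, hc]
  · apply H60K3G.hit_of hEQV X hX t c hs i _ s hi (Equiv.apply_symm_apply _ _) hc.symm g
      (1, 0, 0) hg (deck_one X hX c) _ _ h₁ ⟨by linarith [hξ'.1], by linarith⟩
      ⟨hdsp, hds⟩ hh₁
    · rw [hpti]
      exact htube₁ d habs
    · rw [hfi, act_one, hpts]
  · apply H60K3G.hit_of hEQV X hX t c hs i _ k hi (Equiv.apply_symm_apply _ _) hk g
      g₂ hg hg₂ _ _ (h₁ + h₂) ⟨by rw [neg_div]; linarith, by rw [neg_div]; linarith [hξ'.2]⟩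
      ⟨by rw [neg_div]; linarith, by rw [neg_div]; linarith [hη'.2]⟩ (by linarith)
    · intro κ hκ0 hκ
      rcases lt_trichotomy κ h₁ with h | h | h
      · have h1 := htube₁ (-d) habsn
        rw [← hpti] at h1
        exact h1 κ hκ0 h
      · rw [h, hfi]
        by_contra hnp
        obtain ⟨s', hs', g', hg', ξ₀, hξ₀, ξ₁, hξ₁, e1, e2⟩ := hiso (e.1 + -d, e.2)
          (by simp only [add_sub_cancel_left, abs_neg]; rw [abs_of_pos hd]; exact hd3)
          (by simp only [sub_self, abs_zero]; exact hε₃) hnp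
        have h3 := hSLU C S X hX s s' (by rw [hs', hc]) (1, 0, 0)
          (by rw [← hc]; exact deck_one X hX c) g' (by rw [← hc]; exact hg') 0
          ⟨le_rfl, zero_le_one⟩ ξ₀ hξ₀ (by rw [act_one, ← he, e1])
        obtain ⟨rfl, rfl, rfl⟩ := h3
        rw [act_one] at e2
        have h4 := congrArg Prod.fst e2
        have h5 : e.1 = X.a s := by rw [he]; simp [Data.pt]
        simp only [Data.pt] at h4
        have h6 : 0 ≤ ξ₁ * X.len s := mul_nonneg hξ₁.1 ls.le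
        rw [h5] at h4
        linarith
      · have h1 := htube₂ (-d) habsn2
        have h2 := h1 (κ - h₁) (by linarith) (by linarith)
        have h3 : fwd t (act g (X.pt i (ξ' + -d / X.len i))) κ =
            fwd t (e.1 + -d, e.2) (κ - h₁) := by
          rw [← hfi, fwd_add]
          congr 1
          ring
        rw [h3]
        exact h2
    · rw [← fwd_add, hfi, hfk]
  · apply H60K3G.hit_of hEQV X hX t c hs s _ k hc.symm (Equiv.apply_symm_apply _ _) hk
      (1, 0, 0) g₂ (deck_one X hX c) hg₂ _ _ h₂ ⟨hdsp, hds⟩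
      ⟨by linarith [hη'.1], by linarith⟩ hh₂
    · rw [act_one, hpts]
      exact htube₂ d habs2
    · rw [act_one, hpts, hfk]

end DS
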